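import Mathlib
import Pool.Agent.H507R3.RamAll

/-!
# Full degree vectors of `p`-sets in oriented hypergraphs: a counterexample for `r = 4`, `p = 2`
-/

namespace Pool.Agent.Results.MP_721462_co.FourTwo

open Finset

section defs

variable {V : Type} [Fintype V] [DecidableEq V]

/-- An orientation of the `r`-uniform hypergraph `H`: for every edge `E` a bijection from `E` onto
the positions. -/
abbrev Orientation (r : ℕ) (H : Finset (Finset V)) : Type :=
  ∀ E : {E // E ∈ H}, {v // v ∈ E.1} ≃ Fin r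

/-- The set of positions occupied by the elements of `A` in the edge `E`. -/
def posSet {r : ℕ} {H : Finset (Finset V)} (D : Orientation r H) (E : {E // E ∈ H})
    (A : Finset V) : Finset (Fin r) :=
  univ.filter fun i => ((D E).symm i : V) ∈ A

/-- `d_P(A)`: the number of edges `E ⊇ A` in which the elements of `A` occupy exactly `P`. -/
def degP {r : ℕ} {H : Finset (Finset V)} (D : Orientation r H) (P : Finset (Fin r))
    (A : Finset V) : ℕ :=
  (univ.filter fun E : {E // E ∈ H} => A ⊆ E.1 ∧ posSet D E A = P).card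

/-- `f(D, p, k)`. -/
def fD {r : ℕ} {H : Finset (Finset V)} (D : Orientation r H) (p k : ℕ) : ℕ :=
  (univ.filter fun A : Finset V =>
    A.card = p ∧ ∀ P : Finset (Fin r), P.card = p → k ≤ degP D P A).card

/-- `f(H, p, k)`, the minimum of `f(D, p, k)` over all orientations `D` of `H`. -/
noncomputable def fH (r : ℕ) (H : Finset (Finset V)) (p k : ℕ) : ℕ :=
  ⨅ D : Orientation r H, fD D p k

/-- The `p`-sets in `B` can be coloured with at most `C(r,p)` colours such that no edge all of whose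
`p`-subsets lie in `B` is `p`-monochromatic. -/
def Colourable (r : ℕ) (H : Finset (Finset V)) (p : ℕ) (B : Finset (Finset V)) : Prop :=
  (∀ A ∈ B, A.card = p) ∧ ∃ χ : Finset V → Fin (r.choose p), ∀ E ∈ H,
    (∀ A ⊆ E, A.card = p → A ∈ B) → ¬ ∃ k, ∀ A ⊆ E, A.card = p → χ A = k

/-- `b(H, p)`: the largest size of such a family. -/
noncomputable def bH (r : ℕ) (H : Finset (Finset V)) (p : ℕ) : ℕ :=
  sSup {m | ∃ B : Finset (Finset V), Colourable r H p B ∧ B.card = m}

end defs

/-! ### The hypergraph -/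

/-- The vertices: words of length `4` over an alphabet of size `N`. -/
abbrev Vtx (N : ℕ) : Type := Fin 4 → Fin N

/-- `x` and `y` differ first in position `c`. -/
def Lev {N : ℕ} (c : Fin 4) (x y : Vtx N) : Prop := (∀ j, j < c → x j = y j) ∧ x c ≠ y c

lemma Lev.symm {N : ℕ} {c : Fin 4} {x y : Vtx N} (h : Lev c x y) : Lev c y x :=
  ⟨fun j hj => (h.1 j hj).symm, h.2.symm⟩

lemma Lev.unique {N : ℕ} {c c' : Fin 4} {x y : Vtx N} (h : Lev c x y) (h' : Lev c' x y) :
    c = c' := by
  rcases lt_trichotomy c c' with h1 | h1 | h1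
  · exact absurd (h'.1 c h1) h.2
  · exact h1
  · exact absurd (h.1 c' h1) h'.2

lemma Lev.ne {N : ℕ} {c : Fin 4} {x y : Vtx N} (h : Lev c x y) : x ≠ y := by
  rintro rfl
  exact h.2 rfl

/-- The pattern of an edge. -/
def Pattern {N : ℕ} (c c' : Fin 4) (x1 x2 y1 y2 : Vtx N) : Prop :=
  c < c' ∧ Lev c' x1 x2 ∧ Lev c' y1 y2 ∧ Lev c x1 y1 ∧ Lev c x1 y2 ∧ Lev c x2 y1 ∧ Lev c x2 y2

open Classical in
/-- The edges: `{x1, x2, y1, y2}` with `x1, x2` differing first at `c'`, `y1, y2` differing first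
at `c'`, and each `x_i, y_j` differing first at `c < c'`. -/
noncomputable def Hyp (N : ℕ) : Finset (Finset (Vtx N)) :=
  univ.filter fun E => ∃ c c' x1 x2 y1 y2, Pattern c c' x1 x2 y1 y2 ∧ E = {x1, x2, y1, y2}

lemma mem_Hyp {N : ℕ} {E : Finset (Vtx N)} :
    E ∈ Hyp N ↔ ∃ c c' x1 x2 y1 y2, Pattern c c' x1 x2 y1 y2 ∧ E = {x1, x2, y1, y2} := by
  unfold Hyp
  simp only [mem_filter, mem_univ, true_and]

lemma Hyp_uniform {N : ℕ} {E : Finset (Vtx N)} (h : E ∈ Hyp N) : E.card = 4 := by
  obtain ⟨c, c', x1, x2, y1, y2, ⟨_, h1, h2, h3, h4, h5, h6⟩, rfl⟩ := mem_Hyp.1 h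
  rw [card_insert_of_notMem, card_insert_of_notMem, card_insert_of_notMem, card_singleton]
  · simpa using h2.ne
  · simp only [mem_insert, mem_singleton, not_or]
    exact ⟨h5.ne, h6.ne⟩
  · simp only [mem_insert, mem_singleton, not_or]
    exact ⟨h1.ne, h3.ne, h4.ne⟩

open Classical in
/-- All pairs can be coloured. -/
lemma Hyp_colourable (N : ℕ) :
    Colourable 4 (Hyp N) 2 (univ.filter fun A : Finset (Vtx N) => A.card = 2) := by
  refine ⟨fun A hA => (mem_filter.1 hA).2, ?_⟩
  -- colour by the level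
  let χ : Finset (Vtx N) → Fin (Nat.choose 4 2) := fun A =>
    if h : ∃ c : Fin 4, ∃ x y, Lev c x y ∧ A = {x, y} then
      ⟨(h.choose : ℕ), lt_trans h.choose.2 (by decide)⟩ else ⟨0, by decide⟩
  have key : ∀ (c : Fin 4) (x y : Vtx N), Lev c x y → ∀ c0 : Fin 4,
      (∃ x' y', Lev c0 x' y' ∧ ({x, y} : Finset (Vtx N)) = {x', y'}) → c0 = c := by
    rintro c x y hxy c0 ⟨x', y', hl, he⟩
    have hx : x ∈ ({x', y'} : Finset (Vtx N)) := he ▸ mem_insert_self _ _
    have hy : y ∈ ({x', y'} : Finset (Vtx N)) := he ▸ (by simp)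
    simp only [mem_insert, mem_singleton] at hx hy
    rcases hx with rfl | rfl <;> rcases hy with rfl | rfl
    · exact absurd rfl hxy.ne
    · exact hl.unique hxy
    · exact hl.symm.unique hxy
    · exact absurd rfl hxy.ne
  have hχ : ∀ c (x y : Vtx N), Lev c x y → (χ {x, y} : ℕ) = c := by
    intro c x y hxy
    have h : ∃ c : Fin 4, ∃ x' y', Lev c x' y' ∧ ({x, y} : Finset (Vtx N)) = {x', y'} :=
      ⟨c, x, y, hxy, rfl⟩
    have h1 : (χ {x, y} : ℕ) = (h.choose : ℕ) := by
      simp only [χ]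
      rw [dif_pos h]
    rw [h1, key c x y hxy _ h.choose_spec]
  refine ⟨χ, ?_⟩
  rintro E hE _ ⟨k, hk⟩
  obtain ⟨c, c', x1, x2, y1, y2, ⟨hc, h1, h2, h3, h4, h5, h6⟩, rfl⟩ := mem_Hyp.1 hE
  have e1 := hk {x1, x2} (by intro v; simp only [mem_insert, mem_singleton]; tauto)
    (card_pair h1.ne)
  have e2 := hk {x1, y1} (by intro v; simp only [mem_insert, mem_singleton]; tauto)
    (card_pair h3.ne)
  have e3 : (χ {x1, x2} : ℕ) = χ {x1, y1} := by rw [e1, e2]
  rw [hχ _ _ _ h1, hχ _ _ _ h3] at e3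
  exact absurd (Fin.ext e3) hc.ne'

lemma bH_eq (N : ℕ) : bH 4 (Hyp N) 2 = (Fintype.card (Vtx N)).choose 2 := by
  classical
  have hcard : (univ.filter fun A : Finset (Vtx N) => A.card = 2).card =
      (Fintype.card (Vtx N)).choose 2 := by
    rw [← Finset.card_univ, ← card_powersetCard]
    congr 1
    ext A
    simp only [mem_filter, mem_univ, true_and, mem_powersetCard, subset_univ]
  have hne : {m | ∃ B : Finset (Finset (Vtx N)), Colourable 4 (Hyp N) 2 B ∧ B.card = m}.Nonempty :=
    ⟨_, _, Hyp_colourable N, rfl⟩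
  apply le_antisymm
  · apply csSup_le hne
    rintro m ⟨B, hB, rfl⟩
    rw [← hcard]
    apply card_le_card
    intro A hA
    rw [mem_filter]
    exact ⟨mem_univ _, hB.1 A hA⟩
  · rw [← hcard]
    apply le_csSup
    · refine ⟨Fintype.card (Finset (Vtx N)), ?_⟩
      rintro _ ⟨B, _, rfl⟩
      exact card_le_univ _
    · exact ⟨_, Hyp_colourable N, rfl⟩

/-! ### Every orientation has a full pair -/

lemma sdiff_one {V : Type} [DecidableEq V] {a b c d : V} (h13 : a ≠ c) (h14 : a ≠ d)
    (h23 : b ≠ c) (h24 : b ≠ d) : ({a, b, c, d} : Finset V) \ {a, b} = {c, d} := by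
  ext v
  simp only [mem_sdiff, mem_insert, mem_singleton]
  constructor
  · rintro ⟨h | h | h | h, h'⟩
    · exact absurd (Or.inl h) h'
    · exact absurd (Or.inr h) h'
    · exact Or.inl h
    · exact Or.inr h
  · rintro (rfl | rfl)
    · exact ⟨Or.inr (Or.inr (Or.inl rfl)), by rintro (h | h); exacts [h13 h.symm, h23 h.symm]⟩
    · exact ⟨Or.inr (Or.inr (Or.inr rfl)), by rintro (h | h); exacts [h14 h.symm, h24 h.symm]⟩

lemma sdiff_two {V : Type} [DecidableEq V] {a b c d : V} (h13 : a ≠ c) (h14 : a ≠ d)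
    (h23 : b ≠ c) (h24 : b ≠ d) : ({a, b, c, d} : Finset V) \ {c, d} = {a, b} := by
  ext v
  simp only [mem_sdiff, mem_insert, mem_singleton]
  constructor
  · rintro ⟨h | h | h | h, h'⟩
    · exact Or.inl h
    · exact Or.inr h
    · exact absurd (Or.inl h) h'
    · exact absurd (Or.inr h) h'
  · rintro (rfl | rfl)
    · exact ⟨Or.inl rfl, by rintro (h | h); exacts [h13 h, h14 h]⟩
    · exact ⟨Or.inr (Or.inl rfl), by rintro (h | h); exacts [h23 h, h24 h]⟩

/-- An edge whose opposite pairs have equal forbidden sets from a complementary class cannot be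
oriented. -/
lemma no_orientation {V : Type} [Fintype V] [DecidableEq V] {H : Finset (Finset V)}
    (D : Orientation 4 H) (E : {E // E ∈ H}) (x1 x2 y1 y2 : V)
    (hE : E.1 = {x1, x2, y1, y2}) (h12 : x1 ≠ x2) (h13 : x1 ≠ y1) (h14 : x1 ≠ y2)
    (h23 : x2 ≠ y1) (h24 : x2 ≠ y2) (h34 : y1 ≠ y2)
    (κ : Finset V → Finset (Fin 4)) (P Q : Finset (Fin 4)) (hP : P.card = 2)
    (hQ : Q = P ∨ Q = Pᶜ)
    (hκ : ∀ A ⊆ E.1, A.card = 2 → posSet D E A ≠ κ A)
    (k1 : κ {x1, x2} = P) (k2 : κ {y1, y2} = P) (k3 : κ {x1, y1} = Q) (k4 : κ {x1, y2} = Q)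
    (k5 : κ {x2, y1} = Q) (k6 : κ {x2, y2} = Q) : False := by
  -- the pair occupying `P` and the pair occupying `Pᶜ`
  let occ : Finset (Fin 4) → Finset V := fun R => R.image fun i => ((D E).symm i : V)
  have hocc : ∀ R, posSet D E (occ R) = R := by
    intro R
    ext i
    simp only [posSet, occ, mem_filter, mem_univ, true_and, mem_image]
    constructor
    · rintro ⟨j, hj, hji⟩
      have : j = i := (D E).symm.injective (Subtype.ext hji)
      rwa [← this]
    · intro hi
      exact ⟨i, hi, rfl⟩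
  have hsub : ∀ R, occ R ⊆ E.1 := by
    intro R v hv
    obtain ⟨i, _, rfl⟩ := mem_image.1 hv
    exact ((D E).symm i).2
  have hcard : ∀ R, (occ R).card = R.card := by
    intro R
    apply card_image_of_injective
    intro i j hij
    exact (D E).symm.injective (Subtype.ext hij)
  have hdis : Disjoint (occ P) (occ Pᶜ) := by
    rw [Finset.disjoint_left]
    intro v hv hv'
    obtain ⟨i, hi, rfl⟩ := mem_image.1 hv
    obtain ⟨j, hj, hji⟩ := mem_image.1 hv'
    have : j = i := (D E).symm.injective (Subtype.ext hji)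
    subst this
    exact (mem_compl.1 hj) hi
  have hPc : (Pᶜ).card = 2 := by
    rw [card_compl, hP]; rfl
  have hA := hκ (occ P) (hsub P) ((hcard P).trans hP)
  have hB := hκ (occ Pᶜ) (hsub Pᶜ) ((hcard _).trans hPc)
  rw [hocc] at hA hB
  have hcA : (occ P).card = 2 := (hcard P).trans hP
  have hcB : (occ Pᶜ).card = 2 := (hcard _).trans hPc
  -- `occ P` is one of the six pairs, and `occ Pᶜ` is the opposite one
  have hsA := hsub P
  have hsB := hsub Pᶜ
  have hcomp : occ Pᶜ = E.1 \ occ P := by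
    apply eq_of_subset_of_card_le
    · intro v hv
      rw [mem_sdiff]
      exact ⟨hsB hv, fun h => Finset.disjoint_left.1 hdis h hv⟩
    · rw [card_sdiff_of_subset hsA, hcA, hcB, hE, card_insert_of_notMem, card_insert_of_notMem,
        card_insert_of_notMem, card_singleton]
      · simpa using h34
      · simp only [mem_insert, mem_singleton, not_or]; exact ⟨h23, h24⟩
      · simp only [mem_insert, mem_singleton, not_or]; exact ⟨h12, h13, h14⟩
  rw [hcomp] at hB
  -- enumerate the pair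
  obtain ⟨a, b, hab, hAeq⟩ := card_eq_two.1 hcA
  have ha : a ∈ E.1 := hsA (by rw [hAeq]; simp)
  have hb : b ∈ E.1 := hsA (by rw [hAeq]; simp)
  rw [hAeq] at hA hB
  rw [hE] at ha hb hB
  simp only [mem_insert, mem_singleton] at ha hb
  have s1 : ({x1, x2, y1, y2} : Finset V) \ {x1, x2} = {y1, y2} := sdiff_one h13 h14 h23 h24
  have s2 : ({x1, x2, y1, y2} : Finset V) \ {y1, y2} = {x1, x2} := sdiff_two h13 h14 h23 h24
  have e1 : ({x1, x2, y1, y2} : Finset V) = {x1, y1, x2, y2} := by rw [insert_comm x2 y1]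
  have e2 : ({x1, x2, y1, y2} : Finset V) = {x1, y2, x2, y1} := by
    rw [pair_comm y1 y2, insert_comm x2 y2]
  have s3 : ({x1, x2, y1, y2} : Finset V) \ {x1, y1} = {x2, y2} := by
    rw [e1]; exact sdiff_one h12 h14 h23.symm h34
  have s4 : ({x1, x2, y1, y2} : Finset V) \ {x2, y2} = {x1, y1} := by
    rw [e1]; exact sdiff_two h12 h14 h23.symm h34
  have s5 : ({x1, x2, y1, y2} : Finset V) \ {x1, y2} = {x2, y1} := by
    rw [e2]; exact sdiff_one h12 h13 h24.symm h34.symm
  have s6 : ({x1, x2, y1, y2} : Finset V) \ {x2, y1} = {x1, y2} := by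
    rw [e2]; exact sdiff_two h12 h13 h24.symm h34.symm
  have hA' := hA
  have hB' := hB
  rw [pair_comm a b] at hA' hB'
  -- cross pairs: `A` at `P` needs `Q ≠ P`, and the opposite pair at `Pᶜ` needs `Q ≠ Pᶜ`
  have hcross : ∀ A B : Finset V, κ A = Q → κ B = Q → P ≠ κ A → Pᶜ ≠ κ B → False := by
    intro A B hA hB h1 h2
    rcases hQ with h | h
    · exact h1 (by rw [hA, h])
    · exact h2 (by rw [hB, h])
  rcases ha with ha | ha | ha | ha <;> rcases hb with hb | hb | hb | hb <;>
    rw [ha, hb] at hA hB hA' hB' hab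
  · exact hab rfl
  · exact hA k1.symm
  · rw [s3] at hB; exact hcross _ _ k3 k6 hA hB
  · rw [s5] at hB; exact hcross _ _ k4 k5 hA hB
  · exact hA' k1.symm
  · exact hab rfl
  · rw [s6] at hB; exact hcross _ _ k5 k4 hA hB
  · rw [s4] at hB; exact hcross _ _ k6 k3 hA hB
  · rw [s3] at hB'; exact hcross _ _ k3 k6 hA' hB'
  · rw [s6] at hB'; exact hcross _ _ k5 k4 hA' hB'
  · exact hab rfl
  · exact hA k2.symm
  · rw [s5] at hB'; exact hcross _ _ k4 k5 hA' hB'
  · rw [s4] at hB'; exact hcross _ _ k6 k3 hA' hB'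
  · exact hA' k2.symm
  · exact hab rfl

/-- The element of `Fin N` with value `a`. -/
def mk {N : ℕ} (hN : 0 < N) (a : ℕ) : Fin N := if h : a < N then ⟨a, h⟩ else ⟨0, hN⟩

lemma mk_inj {N : ℕ} (hN : 0 < N) {a b : ℕ} (ha : a < N) (hb : b < N)
    (h : mk hN a = mk hN b) : a = b := by
  unfold mk at h
  rw [dif_pos ha, dif_pos hb] at h
  exact congrArg Fin.val h

/-- Words read off from lists. -/
def xw {N : ℕ} (hN : 0 < N) (l : List ℕ) : Vtx N := fun j => mk hN (l.getD j 0)

/-- See `xw`. -/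
def yw {N : ℕ} (hN : 0 < N) (i : Fin 4) (l : List ℕ) : Vtx N :=
  fun j => mk hN (l.getD (if j < i then (j : ℕ) else 4 + j - i) 0)

/-- Index functions of the four leaves. -/
def X1 (_c _c' j : ℕ) : ℕ := j
/-- See `X1`. -/
def X2 (_c c' j : ℕ) : ℕ := if j < c' then j else 4 + j
/-- See `X1`. -/
def Y1 (c _c' j : ℕ) : ℕ := if j < c then j else 8 + j
/-- See `X1`. -/
def Y2 (c c' j : ℕ) : ℕ := if j < c then j else if j < c' then 8 + j else 12 + j

/-- The index list of a pair of leaves at level `i`. -/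
def ww (i : ℕ) (g h : ℕ → ℕ) (m : ℕ) : ℕ :=
  if m < 4 then g m else if m < 8 - i then h (i + m - 4) else 16 + (m + i - 8)

/-- Conditions for a pair of index functions at level `i`. -/
def Cond (i : ℕ) (g h : ℕ → ℕ) : Prop :=
  (∀ m : Fin 7, ww i g h m < ww i g h (m + 1)) ∧ ww i g h 7 < 20 ∧
    (∀ j : Fin 4, (j : ℕ) < i → g j = h j)

instance (i : ℕ) (g h : ℕ → ℕ) : Decidable (Cond i g h) := by
  unfold Cond; infer_instance

lemma cond_all : ∀ c c' : Fin 4, c < c' →
    Cond c' (X1 c c') (X2 c c') ∧ Cond c' (Y1 c c') (Y2 c c') ∧ Cond c (X1 c c') (Y1 c c') ∧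
    Cond c (X1 c c') (Y2 c c') ∧ Cond c (X2 c c') (Y1 c c') ∧ Cond c (X2 c c') (Y2 c c') := by
  decide

lemma cond_id : ∀ i : Fin 4, Cond i (fun j => j) (fun j => if j < i then j else 4 + j - i) := by
  decide

/-- Pigeonhole for complementary classes. -/
lemma classes (k : Fin 4 → Finset (Fin 4)) (hk : ∀ c, (k c).card = 2) :
    ∃ c c' : Fin 4, c < c' ∧ (k c = k c' ∨ k c = (k c')ᶜ) := by
  let rep : Finset (Fin 4) → Finset (Fin 4) := fun P => if (0 : Fin 4) ∈ P then P else Pᶜ
  have hmaps : ∀ c ∈ (univ : Finset (Fin 4)), rep (k c) ∈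
      (univ.filter fun P : Finset (Fin 4) => P.card = 2 ∧ (0 : Fin 4) ∈ P) := by
    intro c _
    simp only [rep, mem_filter, mem_univ, true_and]
    split_ifs with h
    · exact ⟨hk c, h⟩
    · refine ⟨?_, mem_compl.2 h⟩
      rw [card_compl, hk c]; rfl
  have hcard : (univ.filter fun P : Finset (Fin 4) => P.card = 2 ∧ (0 : Fin 4) ∈ P).card <
      (univ : Finset (Fin 4)).card := by decide
  obtain ⟨c, _, c', _, hne, heq⟩ := exists_ne_map_eq_of_card_lt_of_maps_to hcard hmaps
  have hrel : k c = k c' ∨ k c = (k c')ᶜ := by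
    simp only [rep] at heq
    split_ifs at heq with h1 h2 h2
    · exact Or.inl heq
    · exact Or.inr heq
    · right; rw [← heq, compl_compl]
    · left; exact compl_injective heq
  rcases lt_or_gt_of_ne hne with h | h
  · exact ⟨c, c', h, hrel⟩
  · refine ⟨c', c, h, ?_⟩
    rcases hrel with h' | h'
    · exact Or.inl h'.symm
    · right; rw [h', compl_compl]

lemma exists_N : ∃ N : ℕ, ∀ D : Orientation 4 (Hyp N), 1 ≤ fD D 2 1 := by
  classical
  obtain ⟨N0, hN0⟩ := H507R3.RamAll.ramsey_gen (Fin 4 → Finset (Fin 4)) 8 20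
  set N := N0 + 1 with hNdef
  have hN : 0 < N := Nat.succ_pos _
  refine ⟨N, fun D => ?_⟩
  by_contra hcon
  have h0 : fD D 2 1 = 0 := by omega
  unfold fD at h0
  rw [card_eq_zero, filter_eq_empty_iff] at h0
  -- every pair misses a position set
  have h1 : ∀ A : Finset (Vtx N), ∃ P : Finset (Fin 4), A.card = 2 →
      P.card = 2 ∧ ∀ E : {E // E ∈ Hyp N}, A ⊆ E.1 → posSet D E A ≠ P := by
    intro A
    by_cases hA : A.card = 2
    · have h2 := h0 (mem_univ A)
      push Not at h2
      obtain ⟨P, hP, hlt⟩ := h2 hA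
      refine ⟨P, fun _ => ⟨hP, ?_⟩⟩
      intro E hAE hpos
      have h3 : degP D P A = 0 := by omega
      unfold degP at h3
      rw [card_eq_zero, filter_eq_empty_iff] at h3
      exact h3 (mem_univ E) ⟨hAE, hpos⟩
    · exact ⟨∅, fun h => absurd h hA⟩
  choose κ hκ using h1
  -- Ramsey
  obtain ⟨T, hTS, hTc, k, hk⟩ := hN0 (range N)
    (fun l => fun i => κ {xw hN l, yw hN i l}) (by rw [card_range]; omega)
  let t : ℕ → ℕ := fun a => if h : a < 20 then T.orderEmbOfFin hTc ⟨a, h⟩ else 0
  have htT : ∀ a, a < 20 → t a ∈ T := by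
    intro a ha
    simp only [t]
    rw [dif_pos ha]
    exact T.orderEmbOfFin_mem hTc _
  have htN : ∀ a, a < 20 → t a < N := by
    intro a ha
    exact mem_range.1 (hTS (htT a ha))
  have htlt : ∀ a b, a < b → b < 20 → t a < t b := by
    intro a b hab hb
    simp only [t]
    rw [dif_pos hb, dif_pos (hab.trans hb)]
    exact (T.orderEmbOfFin hTc).strictMono hab
  let leaf : (ℕ → ℕ) → Vtx N := fun g j => mk hN (t (g j))
  -- the homogeneity statement for pairs satisfying `Cond`
  have hmain : ∀ (i : Fin 4) (g h : ℕ → ℕ), Cond i g h →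
      Lev i (leaf g) (leaf h) ∧ κ {leaf g, leaf h} = k i := by
    intro i g h hc
    obtain ⟨c1, c2, c3⟩ := hc
    have hi := i.2
    have hstep : ∀ m, m < 7 → ww i g h m < ww i g h (m + 1) := fun m hm => c1 ⟨m, hm⟩
    have hmono : ∀ a b, a < b → b < 8 → ww i g h a < ww i g h b := by
      intro a b hab
      induction b with
      | zero => omega
      | succ b ih =>
        intro hb
        rcases Nat.lt_or_ge a b with h' | h'
        · exact (ih h' (by omega)).trans (hstep b (by omega))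
        · have : a = b := by omega
          subst this
          exact hstep a (by omega)
    have hlt20 : ∀ a, a < 8 → ww i g h a < 20 := by
      intro a ha
      rcases Nat.lt_or_ge a 7 with h' | h'
      · exact (hmono a 7 h' (by omega)).trans c2
      · have : a = 7 := by omega
        subst this
        exact c2
    have hg : ∀ j : Fin 4, ww i g h j = g j := by
      intro j
      unfold ww
      rw [if_pos j.2]
    have hh : ∀ j : Fin 4, ww i g h (if j < i then (j : ℕ) else 4 + j - i) = h j := by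
      intro j
      have hj := j.2
      split_ifs with hji
      · rw [hg j]
        exact c3 j hji
      · have hji' : (i : ℕ) ≤ j := by
          rw [Fin.lt_def] at hji
          omega
        unfold ww
        rw [if_neg (by omega), if_pos (by omega)]
        congr 1
        omega
    have hgl : ∀ j : Fin 4, g j < 20 := fun j => by rw [← hg j]; exact hlt20 _ (by omega)
    have hhl : ∀ j : Fin 4, h j < 20 := fun j => by
      rw [← hh j]
      apply hlt20
      have hj := j.2
      split_ifs <;> omega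
    constructor
    · constructor
      · intro j hj
        simp only [leaf]
        rw [c3 j hj]
      · intro heq
        simp only [leaf] at heq
        have h1 := mk_inj hN (htN _ (hgl i)) (htN _ (hhl i)) heq
        have h2 := hh i
        rw [if_neg (lt_irrefl i)] at h2
        have h3 := hmono i (4 + i - i) (by omega) (by omega)
        rw [h2, hg i] at h3
        exact absurd h1 (htlt _ _ h3 (hhl i)).ne
    · -- the list
      let l : List ℕ := List.ofFn fun m : Fin 8 => t (ww i g h m)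
      have hget : ∀ a, a < 8 → l.getD a 0 = t (ww i g h a) := by
        intro a ha
        have hla : a < l.length := by
          simp only [l, List.length_ofFn]
          exact ha
        rw [List.getD_eq_getElem _ _ hla]
        simp only [l, List.getElem_ofFn]
      have hl := hk l (by simp [l]) (by
        rw [List.pairwise_ofFn]
        intro a b hab
        exact htlt _ _ (hmono a b hab b.2) (hlt20 b b.2)) (by
        intro x hx
        rw [List.mem_ofFn] at hx
        obtain ⟨a, rfl⟩ := hx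
        exact htT _ (hlt20 a a.2))
      have hl' : κ {xw hN l, yw hN i l} = k i := congrFun hl i
      rw [← hl']
      have e1 : xw hN l = leaf g := by
        funext j
        simp only [xw, leaf]
        rw [hget j (by omega), hg j]
      have e2 : yw hN i l = leaf h := by
        funext j
        simp only [yw, leaf]
        have hj := j.2
        rw [hget _ (by split_ifs <;> omega), hh j]
      rw [e1, e2]
  -- all `k i` have two elements
  have hk2 : ∀ i, (k i).card = 2 := by
    intro i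
    obtain ⟨h1, h2⟩ := hmain i _ _ (cond_id i)
    rw [← h2]
    exact (hκ _ (card_pair h1.ne)).1
  obtain ⟨c, c', hcc, hrel⟩ := classes k hk2
  obtain ⟨a1, a2, a3, a4, a5, a6⟩ := cond_all c c' hcc
  obtain ⟨l1, k1⟩ := hmain _ _ _ a1
  obtain ⟨l2, k2⟩ := hmain _ _ _ a2
  obtain ⟨l3, k3⟩ := hmain _ _ _ a3
  obtain ⟨l4, k4⟩ := hmain _ _ _ a4
  obtain ⟨l5, k5⟩ := hmain _ _ _ a5
  obtain ⟨l6, k6⟩ := hmain _ _ _ a6
  have hE : ({leaf (X1 c c'), leaf (X2 c c'), leaf (Y1 c c'), leaf (Y2 c c')} :
      Finset (Vtx N)) ∈ Hyp N :=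
    mem_Hyp.2 ⟨c, c', _, _, _, _, ⟨hcc, l1, l2, l3, l4, l5, l6⟩, rfl⟩
  exact no_orientation D ⟨_, hE⟩ _ _ _ _ rfl l1.ne l3.ne l4.ne l5.ne l6.ne l2.ne κ (k c') (k c)
    (hk2 c') hrel (fun A hA hA2 => (hκ A hA2).2 ⟨_, hE⟩ hA) k1 k2 k3 k4 k5 k6

/-- **Main result.** For `r = 4`, `p = 2` there is an `r`-uniform hypergraph `H` on a finite vertex
set `V` such that all pairs of vertices can be coloured as in the definition of `b(H, 2)`, i.e.
`b(H, 2) = C(|V|, 2)`, but every orientation of `H` has a pair with all six degrees positive, so that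
`f(H, 2, 1) ≥ 1 > 0 = C(|V|, 2) - b(H, 2)`. -/
theorem result : ∃ (V : Type) (_ : Fintype V) (_ : DecidableEq V) (H : Finset (Finset V)),
    (∀ E ∈ H, E.card = 4) ∧ bH 4 H 2 = (Fintype.card V).choose 2 ∧ 1 ≤ fH 4 H 2 1 ∧
      (Fintype.card V).choose 2 - bH 4 H 2 < fH 4 H 2 1 := by
  classical
  obtain ⟨N, hN⟩ := exists_N
  have h1 : 1 ≤ fH 4 (Hyp N) 2 1 := by
    unfold fH
    have hne : Nonempty (Orientation 4 (Hyp N)) :=
      ⟨fun E => Finset.equivFinOfCardEq (Hyp_uniform E.2)⟩
    obtain ⟨D, hD⟩ := Nat.sInf_mem (Set.range_nonempty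
      (fun D : Orientation 4 (Hyp N) => fD D 2 1))
    have : fD D 2 1 = ⨅ D : Orientation 4 (Hyp N), fD D 2 1 := hD
    rw [← this]
    exact hN D
  refine ⟨Vtx N, inferInstance, inferInstance, Hyp N, fun E hE => Hyp_uniform hE, bH_eq N, h1, ?_⟩
  rw [bH_eq N, Nat.sub_self]
  exact h1

end Pool.Agent.Results.MP_721462_co.FourTwo
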